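import Pool.Agent.Q136.GA.OrderTwo

/-!
# MP_fbe023_nt: removable elements of a `G`-adic basis with zero adjoined

Complete answer for order two; complete answer for every order when the other parts
contain a block of large ratio; one necessary and one sufficient digit condition in general.
-/

namespace Pool.Agent.Results.MP_fbe023_nt.RemovableElements

open Finset Pool.Agent.Q136.GA

open Classical in
/-- `M g W J`: the largest number below `g J` whose digits vanish outside `W`, written as
the sum of `(d_{j+1} - 1) g_j` over the `j < J` in `W`. -/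
noncomputable def M (g : ℕ → ℕ) (W : Set ℕ) (J : ℕ) : ℕ :=
  ∑ j ∈ range J, if j ∈ W then (g (j + 1) / g j - 1) * g j else 0

/-- `W` contains the block `{s, ..., e-1}` with `g_e / g_s > h`. -/
def HasBlock (h : ℕ) (g : ℕ → ℕ) (W : Set ℕ) : Prop :=
  ∃ s e, s ≤ e ∧ (∀ j, s ≤ j → j < e → j ∈ W) ∧ h * g s < g e

/-- Order two: for `a` with digits in `U`, and `V` the other part: `d_{j+1} = 2` for every `j`
in `V`, and the block of consecutive elements of `U` which ends at `j - 1` is nonempty and
contains a position at which the digit of `a` is not the largest possible. -/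
def DigitCondition (g : ℕ → ℕ) (U V : Set ℕ) (a : ℕ) : Prop :=
  ∀ j ∈ V, g (j + 1) = 2 * g j ∧
    ∃ i < j, (∀ k, i ≤ k → k < j → k ∈ U) ∧ a / g i % (g (i + 1) / g i) ≠ g (i + 1) / g i - 1

theorem M_eq (g : ℕ → ℕ) (W : Set ℕ) (J : ℕ) : M g W J = m g W J := rfl

theorem result :
    -- every order, other parts with a block of large ratio
    (∀ (h : ℕ) (g : ℕ → ℕ) (W : Fin h → Set ℕ), IsGadic g → IsPartition W →
      ∀ (i : Fin h), (∀ c, c ≠ i → HasBlock h g (W c)) → ∀ a ∈ AG g (W i),
        (IsAsymptoticBasis h (base g W \ {a}) ↔ (W i)ᶜ.Finite)) ∧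
    (∀ (h : ℕ) (g : ℕ → ℕ) (W : Fin h → Set ℕ), IsGadic g → IsPartition W →
      (∀ c, HasBlock h g (W c)) → ∀ a ∈ base g W,
        (IsAsymptoticBasis h (base g W \ {a}) ↔ a = 0 ∨ ∃ i, a ∈ AG g (W i) ∧ (W i)ᶜ.Finite)) ∧
    -- order two, complete answer
    (∀ (g : ℕ → ℕ) (W : Fin 2 → Set ℕ), IsGadic g → IsPartition W → ∀ a ∈ base g W,
        (IsAsymptoticBasis 2 (base g W \ {a}) ↔
          a = 0 ∨ ∃ i, a ∈ AG g (W i) ∧
            ((W (1 - i)).Finite ∨ DigitCondition g (W i) (W (1 - i)) a))) ∧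
    -- every order: a necessary condition and a sufficient condition
    (∀ (h : ℕ) (g : ℕ → ℕ) (W : Fin h → Set ℕ), IsGadic g → IsPartition W →
      ∀ (i : Fin h), ∀ a ∈ AG g (W i),
        ((W i)ᶜ.Finite → IsAsymptoticBasis h (base g W \ {a})) ∧
        ((W i)ᶜ.Infinite → IsAsymptoticBasis h (base g W \ {a}) →
          ∃ φ : Fin h → Fin h, ¬ Function.Injective φ ∧
            ∀ J, a % g J + ∑ k ∈ univ.erase i, M g (W k) J ≤ ∑ k, M g (W (φ k)) J) ∧
        ((∃ φ : Fin h → Fin h, (∀ k, φ k ≠ i) ∧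
            ∀ J, a % g J + ∑ k ∈ univ.erase i, M g (W k) J ≤ ∑ k, M g (W (φ k)) J) →
          IsAsymptoticBasis h (base g W \ {a}))) := by
  have part1 : ∀ (h : ℕ) (g : ℕ → ℕ) (W : Fin h → Set ℕ), IsGadic g → IsPartition W →
      ∀ (i : Fin h), (∀ c, c ≠ i → HasBlock h g (W c)) → ∀ a ∈ AG g (W i),
        (IsAsymptoticBasis h (base g W \ {a}) ↔ (W i)ᶜ.Finite) := by
    intro h g W hg hW i hB a ha
    obtain ⟨ha0, haZ⟩ := (mem_AG_iff hg).mp ha
    constructor
    · intro hb
      by_contra hinf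
      obtain ⟨φ, hφ, hstar⟩ := removable_necessary hg hW i haZ hinf hb
      refine own_part_obstruction hg hW i ha0 haZ φ hφ ?_ hstar
      intro c hc
      by_contra hcon
      push Not at hcon
      obtain ⟨s, e, hse, hbl, hr⟩ := hB c hc
      exact block_obstruction hg hW i c hc hse hbl hr φ hcon a (hstar e)
    · exact removable_cofinite hg hW i ha0 haZ
  refine ⟨part1, ?_, ?_, ?_⟩
  · intro h g W hg hW hB a ha
    constructor
    · intro hb
      by_cases h0 : a = 0
      · exact Or.inl h0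
      · rcases (mem_base_iff hg).mp ha with h | ⟨i, hi⟩
        · exact absurd h h0
        · have hA := (mem_AG_iff hg).mpr ⟨h0, hi⟩
          exact Or.inr ⟨i, hA, (part1 h g W hg hW i (fun c _ => hB c) a hA).mp hb⟩
    · rintro (rfl | ⟨i, hA, hfin⟩)
      · exact zero_removable hg hW
      · exact (part1 h g W hg hW i (fun c _ => hB c) a hA).mpr hfin
  · intro g W hg hW
    exact order_two hg hW
  · intro h g W hg hW i a ha
    obtain ⟨ha0, haZ⟩ := (mem_AG_iff hg).mp ha
    simp only [M_eq]
    refine ⟨removable_cofinite hg hW i ha0 haZ, fun hinf hb =>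
      removable_necessary hg hW i haZ hinf hb, ?_⟩
    rintro ⟨φ, h1, h2⟩
    exact removable_sufficient hg hW i ha0 haZ φ h1 h2

end Pool.Agent.Results.MP_fbe023_nt.RemovableElements
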